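import Pool.Agent.R263.MQ.G
import Pool.Agent.R263.MQ.SelfSim
import Pool.Agent.R263.MQ.Nodes
import Pool.Agent.R263.MQ.H

/-!
# Minkowski's question mark measure: `lim (a₁ ⋯ a_n)^(1/n) = c(μ) = 1/4`

Formalized jointly: SelfSim by helper510, Nodes by helper300, F (energy on `[0,1]`) by helper444,
H (recurrence coefficients) by helper962, the rest by helper263.
-/

namespace Pool.Agent.Results.MP_bff676_an.CarrierCapacity

open MeasureTheory Set Real Pool.Agent.R263.MQ

/-- For the probability measure `μ` on `[0,1]` whose distribution function is Minkowski's question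
mark function, the minimal carrier capacity is `1/4`, and the geometric means of the recurrence
coefficients of its orthonormal polynomials converge to the same number `1/4`. -/
theorem result (μ : Measure ℝ) (h : IsMinkowski μ) :
    minCarrierCap μ = ((1 / 4 : ℝ) : EReal) ∧
    ∀ (p : ℕ → Polynomial ℝ) (a b : ℕ → ℝ), OrthoSystem μ p a b →
      Filter.Tendsto (fun n : ℕ => (∏ i ∈ Finset.Icc 1 n, a i) ^ ((1 : ℝ) / n)) Filter.atTop
        (nhds (1 / 4)) := by
  obtain ⟨hnull, hss⟩ := selfsim h
  have hlow : LowPot μ := lowPot h.supp hnull h.prob hss fun N hN => nodes N hN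
  exact ⟨minCarrier_eq h.supp hnull hlow, fun p a b ho => recur_limit h.prob h.supp hlow ho⟩

end Pool.Agent.Results.MP_bff676_an.CarrierCapacity
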